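import Pool.Agent.Helper87.HQ.St

set_option autoImplicit false

namespace Pool.Agent.Helper81.HQ

open Pool.Agent.Helper87.HQ Set MvPolynomial

private lemma slack {ι : Type} (Z : Set (ι → ℝ)) (hZ : SA Z) :
    ∃ (κ : Type) (_ : Finite κ) (S : Set (MvPolynomial (ι ⊕ κ) ℝ)),
      ∀ x, x ∈ Z ↔ ∃ y : κ → ℝ, ∀ p ∈ S, eval (Sum.elim x y) p = 0 := by
  induction hZ with
  | eq p =>
    refine ⟨Empty, inferInstance, {rename Sum.inl p}, ?_⟩
    intro x
    constructor
    · intro hx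
      refine ⟨fun e => e.elim, ?_⟩
      rintro q rfl
      rw [eval_rename, Sum.elim_comp_inl]
      exact hx
    · rintro ⟨y, hy⟩
      have := hy _ rfl
      rw [eval_rename, Sum.elim_comp_inl] at this
      exact this
  | le p =>
    refine ⟨Unit, inferInstance, {rename Sum.inl p - (X (Sum.inr ())) ^ 2}, ?_⟩
    intro x
    constructor
    · intro hx
      refine ⟨fun _ => Real.sqrt (eval x p), ?_⟩
      rintro q rfl
      rw [map_sub, map_pow, eval_rename, Sum.elim_comp_inl, eval_X, Sum.elim_inr,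
        Real.sq_sqrt hx, sub_self]
    · rintro ⟨y, hy⟩
      have := hy _ rfl
      rw [map_sub, map_pow, eval_rename, Sum.elim_comp_inl, eval_X, Sum.elim_inr,
        sub_eq_zero] at this
      show 0 ≤ eval x p
      rw [this]
      exact sq_nonneg _
  | inter A B _ _ ihA ihB =>
    obtain ⟨κ, hκ, S, hS⟩ := ihA
    obtain ⟨κ', hκ', S', hS'⟩ := ihB
    refine ⟨κ ⊕ κ', inferInstance,
      (rename (Sum.map id Sum.inl) '' S) ∪ (rename (Sum.map id Sum.inr) '' S'), ?_⟩
    intro x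
    have e1 : ∀ (y : κ ⊕ κ' → ℝ) (p : MvPolynomial (ι ⊕ κ) ℝ),
        eval (Sum.elim x y) (rename (Sum.map id Sum.inl) p) =
          eval (Sum.elim x (y ∘ Sum.inl)) p := by
      intro y p
      rw [eval_rename]
      congr 2
      funext i
      rcases i with i | i <;> rfl
    have e2 : ∀ (y : κ ⊕ κ' → ℝ) (p : MvPolynomial (ι ⊕ κ') ℝ),
        eval (Sum.elim x y) (rename (Sum.map id Sum.inr) p) =
          eval (Sum.elim x (y ∘ Sum.inr)) p := by
      intro y p
      rw [eval_rename]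
      congr 2
      funext i
      rcases i with i | i <;> rfl
    constructor
    · rintro ⟨hA, hB⟩
      obtain ⟨y, hy⟩ := (hS x).1 hA
      obtain ⟨y', hy'⟩ := (hS' x).1 hB
      refine ⟨Sum.elim y y', ?_⟩
      rintro q (⟨p, hp, rfl⟩ | ⟨p, hp, rfl⟩)
      · rw [e1, Sum.elim_comp_inl]
        exact hy p hp
      · rw [e2, Sum.elim_comp_inr]
        exact hy' p hp
    · rintro ⟨y, hy⟩
      refine ⟨(hS x).2 ⟨y ∘ Sum.inl, ?_⟩, (hS' x).2 ⟨y ∘ Sum.inr, ?_⟩⟩
      · intro p hp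
        rw [← e1]
        exact hy _ (Or.inl ⟨p, hp, rfl⟩)
      · intro p hp
        rw [← e2]
        exact hy _ (Or.inr ⟨p, hp, rfl⟩)
  | union A B _ _ ihA ihB =>
    obtain ⟨κ, hκ, S, hS⟩ := ihA
    obtain ⟨κ', hκ', S', hS'⟩ := ihB
    refine ⟨κ ⊕ κ', inferInstance,
      {r | ∃ p ∈ S, ∃ q ∈ S', r = rename (Sum.map id Sum.inl) p * rename (Sum.map id Sum.inr) q},
      ?_⟩
    intro x
    have e1 : ∀ (y : κ ⊕ κ' → ℝ) (p : MvPolynomial (ι ⊕ κ) ℝ),
        eval (Sum.elim x y) (rename (Sum.map id Sum.inl) p) =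
          eval (Sum.elim x (y ∘ Sum.inl)) p := by
      intro y p
      rw [eval_rename]
      congr 2
      funext i
      rcases i with i | i <;> rfl
    have e2 : ∀ (y : κ ⊕ κ' → ℝ) (p : MvPolynomial (ι ⊕ κ') ℝ),
        eval (Sum.elim x y) (rename (Sum.map id Sum.inr) p) =
          eval (Sum.elim x (y ∘ Sum.inr)) p := by
      intro y p
      rw [eval_rename]
      congr 2
      funext i
      rcases i with i | i <;> rfl
    constructor
    · rintro (hA | hB)
      · obtain ⟨y, hy⟩ := (hS x).1 hA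
        refine ⟨Sum.elim y 0, ?_⟩
        rintro r ⟨p, hp, q, _, rfl⟩
        rw [map_mul, e1, Sum.elim_comp_inl, hy p hp, zero_mul]
      · obtain ⟨y', hy'⟩ := (hS' x).1 hB
        refine ⟨Sum.elim 0 y', ?_⟩
        rintro r ⟨p, _, q, hq, rfl⟩
        rw [map_mul, e2, Sum.elim_comp_inr, hy' q hq, mul_zero]
    · rintro ⟨y, hy⟩
      by_cases h : ∀ p ∈ S, eval (Sum.elim x (y ∘ Sum.inl)) p = 0
      · exact Or.inl ((hS x).2 ⟨_, h⟩)
      · push Not at h
        obtain ⟨p, hp, hne⟩ := h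
        refine Or.inr ((hS' x).2 ⟨y ∘ Sum.inr, ?_⟩)
        intro q hq
        have h1 := hy _ ⟨p, hp, q, hq, rfl⟩
        rw [map_mul, e1, e2] at h1
        exact (mul_eq_zero.1 h1).resolve_left hne

/-- Module B: slack variables. -/
theorem hB : StB := by
  intro hPA ι _ Z hZ f hinf
  obtain ⟨κ, hκ, S, hS⟩ := slack Z hZ
  have himg : (fun z => eval z f) '' Z = Img S (rename Sum.inl f) := by
    ext t
    constructor
    · rintro ⟨x, hx, rfl⟩
      obtain ⟨y, hy⟩ := (hS x).1 hx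
      refine ⟨Sum.elim x y, hy, ?_⟩
      rw [eval_rename, Sum.elim_comp_inl]
    · rintro ⟨z, hz, rfl⟩
      refine ⟨z ∘ Sum.inl, (hS _).2 ⟨z ∘ Sum.inr, ?_⟩, ?_⟩
      · rw [Sum.elim_comp_inl_inr]
        exact hz
      · rw [eval_rename]
  rw [himg] at hinf ⊢
  exact hPA (ι ⊕ κ) S _ hinf

end Pool.Agent.Helper81.HQ
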